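import Pool.Agent.W845.DH.Top
import Pool.Agent.W803.DH.Swm
import Pool.Agent.W589.DH.Sws
import Pool.Agent.W202.DH.Sep
import Pool.Agent.W140.DH.Swx
import Pool.Agent.W395.DH.K23
import Pool.Agent.W52.DH.Fac
import Pool.Agent.W85.DH.FW1
import Pool.Agent.W168.DH.FW2
import Pool.Agent.W63.DH.Few
import Pool.Agent.W370.DH.Sel
import Pool.Agent.W318.DH.Abs
import Pool.Agent.W536.DH.Conn
import Pool.Agent.W349.DH.Absorb
import Pool.Agent.W52.DH.Conx
import Pool.Agent.W565.DH.NE1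
import Pool.Agent.W54.DH.NE
import Pool.Agent.W409.DH.St1
import Pool.Agent.W253.DH.ST2
import Pool.Agent.W67.DH.HG
import Pool.Agent.W672.DH.Hm
import Pool.Agent.W605.DH.HP
import Pool.Agent.W654.DH.H
import Pool.Agent.W19.DH.DM
import Pool.Agent.W672.DH.Fsa
import Pool.Agent.W439.DH.FSB
import Pool.Agent.W853.DH.FSC
import Pool.Agent.W554.DH.EW
import Pool.Agent.W481.DH.Cheb
import Pool.Agent.W143.DH.Rm
import Pool.Agent.W977.DH.Lowd

set_option autoImplicit false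

namespace Pool.Agent.W845.DH

theorem t_swm : S_SWM := Pool.Agent.W803.DH.swm
theorem t_sws : S_SWS := Pool.Agent.W589.DH.Sws.sws t_swm
theorem t_sep : S_SEP := Pool.Agent.W202.DH.Sep.sep
theorem t_sw3 : S_SW3 := Pool.Agent.W140.DH.sw3 t_swm
theorem t_sw4 : S_SW4 := Pool.Agent.W140.DH.sw4 t_swm t_sws
theorem t_sw6 : S_SW6 := Pool.Agent.W140.DH.sw6 t_swm t_sws
theorem t_k23 : S_K23 := Pool.Agent.W395.DH.k23
theorem t_fac : S_FAC := Pool.Agent.W52.DH.fac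
theorem t_fw1 : S_FW1 := Pool.Agent.W85.DH.fw1 t_swm t_sw4
theorem t_fw2 : S_FW2 := Pool.Agent.W168.DH.fw2 t_sw3 t_sw6
theorem t_few : S_FEW := Pool.Agent.W63.DH.few t_fac t_fw1 t_fw2 t_sep t_k23
theorem t_sel : S_SEL := Pool.Agent.W370.DH.sel
theorem t_abs : S_ABS := Pool.Agent.W318.DH.abs_main
theorem t_conn : S_CONN := Pool.Agent.W536.DH.conn t_swm
theorem t_absorb : S_ABSORB := Pool.Agent.W349.DH.absorb t_swm
theorem t_conx : S_CONX := Pool.Agent.W52.DH.conx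
theorem t_ne1 : S_NE1 := Pool.Agent.W565.DH.ne1 t_sel t_abs t_conx
theorem t_ne : S_NE := Pool.Agent.W54.DH.ne t_few t_ne1 t_conn t_absorb
theorem t_st1 : S_ST1 := Pool.Agent.W409.DH.st1
theorem t_st2 : S_ST2 := Pool.Agent.W253.DH.st2
theorem t_hg : S_HG := Pool.Agent.W67.DH.hg
theorem t_hm : S_HM := Pool.Agent.W672.DH.hm
theorem t_hp : S_HP := Pool.Agent.W605.DH.HP.hp t_swm t_hg t_hm
theorem t_h : S_H := Pool.Agent.W654.DH.h_thm t_hp
theorem t_dm : S_DM := Pool.Agent.W19.DH.dm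
theorem t_fsa : S_FSA := Pool.Agent.W672.DH.fsa t_h
theorem t_fsb : S_FSB := Pool.Agent.W439.DH.fsb t_h t_dm
theorem t_fsc : S_FSC := Pool.Agent.W853.DH.fsc t_h t_dm
theorem t_ew : S_EW := Pool.Agent.W554.DH.ew
theorem t_cheb : S_CHEB := Pool.Agent.W481.DH.cheb t_ew
theorem t_rm : S_RM := Pool.Agent.W143.DH.rm t_ew t_cheb
theorem t_lowd : S_LOWD := Pool.Agent.W977.DH.lowd t_ew
theorem t_ext : S_EXT := ext_thm t_st1 t_st2 t_fsa t_fsb t_fsc

end Pool.Agent.W845.DH
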