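import Mathlib

set_option autoImplicit false
open scoped Classical
open Filter Topology
open scoped BigOperators

namespace Pool.Agent.W845.DH

noncomputable section

/-! Digraphs are relations `D : V → V → Prop` on a finite type. -/

/-- Number of out-neighbours of `v` in `X`. -/
def od {V : Type} (D : V → V → Prop) (v : V) (X : Finset V) : ℕ := (X.filter (fun w => D v w)).card

/-- Number of in-neighbours of `v` in `X`. -/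
def idg {V : Type} (D : V → V → Prop) (v : V) (X : Finset V) : ℕ :=
  (X.filter (fun w => D w v)).card

/-- Number of arcs from `X` to `Y`. -/
def ee {V : Type} (D : V → V → Prop) (X Y : Finset V) : ℕ :=
  ((X ×ˢ Y).filter (fun e => D e.1 e.2)).card

/-- Number of missing arcs from `X` to `Y`. -/
def mis {V : Type} (D : V → V → Prop) (X Y : Finset V) : ℕ :=
  ((X ×ˢ Y).filter (fun e => ¬ D e.1 e.2)).card

/-- Minimum semidegree at least `δ`. -/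
def Deg {V : Type} [Fintype V] (δ : ℝ) (D : V → V → Prop) : Prop :=
  ∀ v, δ ≤ (od D v Finset.univ : ℝ) ∧ δ ≤ (idg D v Finset.univ : ℝ)

/-- Many arcs between any two sets of size about half of the vertices. -/
def Rob {V : Type} [Fintype V] (γ : ℝ) (D : V → V → Prop) : Prop :=
  ∀ X Y : Finset V, (1 / 2 - γ) * (Fintype.card V : ℝ) ≤ (X.card : ℝ) →
    (1 / 2 - γ) * (Fintype.card V : ℝ) ≤ (Y.card : ℝ) →
    γ * (Fintype.card V : ℝ) ^ 2 < (ee D X Y : ℝ)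

/-- The cycle of `v` in the permutation `τ`. -/
def cls {V : Type} [Fintype V] (τ : Equiv.Perm V) (v : V) : Finset V :=
  Finset.univ.filter (fun w => τ.SameCycle v w)

/-- Number of cycles, fixed points included. -/
def nc {V : Type} [Fintype V] (τ : Equiv.Perm V) : ℕ := (Finset.univ.image (cls τ)).card

/-- Number of cycles of length at least two. -/
def ncn {V : Type} [Fintype V] (τ : Equiv.Perm V) : ℕ :=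
  ((Finset.univ.filter (fun v => τ v ≠ v)).image (cls τ)).card

/-- A Hamilton cycle, as a permutation with one orbit. -/
def HamD {V : Type} (D : V → V → Prop) : Prop :=
  ∃ τ : Equiv.Perm V, (∀ v, D v (τ v)) ∧ ∀ u v, τ.SameCycle u v

/-- A vertex disjoint set of arcs. -/
def VDs {V : Type} (F : Finset (V × V)) : Prop :=
  (∀ e ∈ F, e.1 ≠ e.2) ∧ ∀ e ∈ F, ∀ f ∈ F, e ≠ f → e.1 ≠ f.1 ∧ e.1 ≠ f.2 ∧ e.2 ≠ f.1 ∧ e.2 ≠ f.2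

/-- The vertices touched by `F`. -/
def vs {V : Type} (F : Finset (V × V)) : Finset V := F.image Prod.fst ∪ F.image Prod.snd

/-! Permutations and swaps -/

def S_SWM : Prop := ∀ (V : Type) [Fintype V] (τ : Equiv.Perm V) (u v : V), ¬ τ.SameCycle u v →
  (∀ x y, (τ * Equiv.swap u v).SameCycle x y ↔ (τ.SameCycle x y ∨
    ((τ.SameCycle u x ∨ τ.SameCycle v x) ∧ (τ.SameCycle u y ∨ τ.SameCycle v y)))) ∧
  nc (τ * Equiv.swap u v) + 1 = nc τ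

def S_SWS : Prop := ∀ (V : Type) [Fintype V] (τ : Equiv.Perm V) (u v : V), u ≠ v →
  τ.SameCycle u v → ¬ (τ * Equiv.swap u v).SameCycle u v ∧
  (∀ x y, (τ * Equiv.swap u v).SameCycle x y → τ.SameCycle x y) ∧
  (∀ x y, ¬ τ.SameCycle u x → τ.SameCycle x y → (τ * Equiv.swap u v).SameCycle x y) ∧
  (∀ x, τ.SameCycle u x → (τ * Equiv.swap u v).SameCycle u x ∨ (τ * Equiv.swap u v).SameCycle v x) ∧
  nc (τ * Equiv.swap u v) = nc τ + 1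

def S_SEP : Prop := ∀ (V : Type) [Fintype V] (τ : Equiv.Perm V) (u u' : V) (w : Fin 3 → V),
  u ≠ u' → Function.Injective w → (∀ i, w i ≠ u ∧ w i ≠ u') → τ.SameCycle u u' →
  (∀ i, τ.SameCycle u (w i)) → ∃ i j : Fin 3, i ≠ j ∧ ¬ (τ * Equiv.swap u (w i)).SameCycle u' (w j)

def S_SW3 : Prop := ∀ (V : Type) [Fintype V] (τ : Equiv.Perm V) (u v w : V),
  ¬ τ.SameCycle u v → ¬ τ.SameCycle u w → ¬ τ.SameCycle v w →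
  nc (τ * Equiv.swap u v * Equiv.swap v w) + 2 = nc τ

def S_SW4 : Prop := ∀ (V : Type) [Fintype V] (τ : Equiv.Perm V) (u1 u1' u2 u3 : V),
  ¬ τ.SameCycle u1 u1' → ¬ τ.SameCycle u1 u2 → ¬ τ.SameCycle u1 u3 → ¬ τ.SameCycle u1' u2 →
  ¬ τ.SameCycle u1' u3 → u2 ≠ u3 →
  nc (τ * Equiv.swap u1 u2 * Equiv.swap u2 u1' * Equiv.swap u1' u3) < nc τ

def S_SW6 : Prop := ∀ (V : Type) [Fintype V] (τ : Equiv.Perm V) (u1 u1' u2 u3 u4 u5 : V),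
  ¬ τ.SameCycle u1 u1' → ¬ τ.SameCycle u1 u2 → ¬ τ.SameCycle u1' u2 → u2 ≠ u3 →
  τ.SameCycle u2 u3 → τ.SameCycle u2 u4 → τ.SameCycle u2 u5 →
  ¬ (τ * Equiv.swap u2 u3).SameCycle u4 u5 →
  nc (τ * Equiv.swap u2 u3 * Equiv.swap u3 u1 * Equiv.swap u1' u4 * Equiv.swap u4 u5) + 2 = nc τ

def S_K23 : Prop := ∀ c : ℝ, 0 < c → ∃ N : ℕ, ∀ (V : Type) [Fintype V] (E : Finset (V × V)),
  N ≤ Fintype.card V → c * (Fintype.card V : ℝ) ^ 2 ≤ (E.card : ℝ) →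
  ∃ (u u' : V) (w : Fin 3 → V), u ≠ u' ∧ Function.Injective w ∧ ∀ i, (u, w i) ∈ E ∧ (u', w i) ∈ E

def S_FAC : Prop := ∀ (V : Type) [Fintype V] (γ : ℝ) (D : V → V → Prop), 0 ≤ γ →
  Deg ((1 / 2 - γ) * (Fintype.card V : ℝ)) D → Rob γ D → ∃ σ : Equiv.Perm V, ∀ v, D v (σ v)

/-- A 1-factor with the smallest number of cycles. -/
def Opt {V : Type} [Fintype V] (D : V → V → Prop) (σ : Equiv.Perm V) : Prop :=
  (∀ v, D v (σ v)) ∧ ∀ σ' : Equiv.Perm V, (∀ v, D v (σ' v)) → nc σ ≤ nc σ'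

def S_FW1 : Prop := ∀ (V : Type) [Fintype V] (D : V → V → Prop) (σ : Equiv.Perm V) (ε θ : ℝ)
  (u u' : V), Opt D σ → Deg ((1 / 2 - ε) * (Fintype.card V : ℝ)) D → ¬ σ.SameCycle u u' →
  ((cls σ u).card : ℝ) ≤ θ * Fintype.card V → ((cls σ u').card : ℝ) ≤ θ * Fintype.card V →
  (∀ w, D u (σ w) → D w (σ u) → σ.SameCycle u w) ∧
  (1 / 2 - 3 * ε - 3 * θ) * (Fintype.card V : ℝ) ≤
    ((Finset.univ.filter (fun w => D u (σ w) ∧ D u' (σ w))).card : ℝ) ∧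
  (1 / 2 - 3 * ε - 3 * θ) * (Fintype.card V : ℝ) ≤
    ((Finset.univ.filter (fun w => D w (σ u) ∧ D w (σ u'))).card : ℝ)

def S_FW2 : Prop := ∀ (V : Type) [Fintype V] (D : V → V → Prop) (σ : Equiv.Perm V), Opt D σ →
  (∀ u x y, D u (σ x) → D x (σ y) → D y (σ u) → ¬ σ.SameCycle u x → ¬ σ.SameCycle u y →
    σ.SameCycle x y) ∧
  (∀ u u' x y x' y', D u (σ x) → D x (σ y) → D y (σ u) → D u' (σ x') → D x' (σ y') →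
    D y' (σ u') → ¬ σ.SameCycle u u' → ¬ σ.SameCycle u x → ¬ σ.SameCycle u' x →
    σ.SameCycle x y → σ.SameCycle x x' → σ.SameCycle x y' → x ≠ x' → y ≠ y' → x ≠ y → x ≠ y' →
    x' ≠ y → x' ≠ y' → (σ * Equiv.swap x y).SameCycle x' y')

def S_FEW : Prop := ∀ γ : ℝ, 0 < γ → γ ≤ 1 / 4 → ∃ (ε : ℝ) (C N : ℕ), 0 < ε ∧ ∀ (V : Type)
  [Fintype V] (D : V → V → Prop), N ≤ Fintype.card V →
  Deg ((1 / 2 - ε) * (Fintype.card V : ℝ)) D → Rob γ D →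
  ∃ σ : Equiv.Perm V, (∀ v, D v (σ v)) ∧ nc σ ≤ C

/-! Absorption -/

def S_SEL : Prop := ∀ γ α : ℝ, 0 < γ → γ ≤ 1 → 0 < α → α ≤ γ / 16 → ∃ N : ℕ,
  ∀ (n : ℕ) (I : Type) [Fintype I] (E : I → Finset (Fin n × Fin n)) (Z : Finset (Fin n)), N ≤ n →
    Fintype.card I ≤ n ^ 2 → (∀ i, γ * (n : ℝ) ^ 2 ≤ ((E i).card : ℝ)) →
    (∀ i, ∀ e ∈ E i, e.1 ≠ e.2) → (Z.card : ℝ) ≤ γ / 8 * n →
    ∃ M : Finset (Fin n × Fin n), VDs M ∧ (∀ e ∈ M, e.1 ∉ Z ∧ e.2 ∉ Z) ∧ (M.card : ℝ) ≤ α * n ∧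
      ∀ i, γ * α / 16 * n ≤ ((M ∩ E i).card : ℝ)

/-- Any two vertices are joined by a path of length three avoiding a given set of size `≤ m`. -/
def Con {V : Type} (m : ℕ) (D : V → V → Prop) : Prop := ∀ (u w : V) (Z : Finset V), Z.card ≤ m →
  ∃ x y : V, x ∉ Z ∧ y ∉ Z ∧ x ≠ y ∧ D u x ∧ D x y ∧ D y w

def S_ABS : Prop := ∀ (V : Type) [Fintype V] (D : V → V → Prop) (m : ℕ) (A : Finset (V × V)),
  Con m D → VDs A → (∀ e ∈ A, D e.1 e.2) → 8 * A.card + 2 ≤ m →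
  ∃ τ : Equiv.Perm V, (∀ v, τ v = v ∨ D v (τ v)) ∧
    (∀ x y, τ x ≠ x → τ y ≠ y → τ.SameCycle x y) ∧ (∀ e ∈ A, τ e.1 = e.2) ∧
    (Finset.univ.filter (fun v => τ v ≠ v)).card ≤ 6 * A.card

def S_CONN : Prop := ∀ (V : Type) [Fintype V] (D : V → V → Prop) (r : ℕ) (τ : Equiv.Perm V)
  (M : Finset (V × V)), (∀ v, τ v = v ∨ D v (τ v)) → ncn τ ≤ r → VDs M →
  (∀ e ∈ M, τ e.1 = e.1 ∧ τ e.2 = e.2 ∧ D e.1 e.2) →
  (∀ u w, 2 * r ≤ (M.filter (fun e => D u e.1 ∧ D e.2 w)).card) →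
  ∃ τ' : Equiv.Perm V, (∀ v, τ' v = v ∨ D v (τ' v)) ∧
    (∀ x y, τ' x ≠ x → τ' y ≠ y → τ'.SameCycle x y) ∧ (∀ v, τ v ≠ v → τ' v ≠ v) ∧
    (Finset.univ.filter (fun v => τ v ≠ v ∧ τ' v ≠ τ v)).card ≤ 2 * r

def S_ABSORB : Prop := ∀ (V : Type) [Fintype V] (D : V → V → Prop) (τ : Equiv.Perm V)
  (A : Finset (V × V)), (∀ v, τ v = v ∨ D v (τ v)) → (∃ v, τ v ≠ v) →
  (∀ x y, τ x ≠ x → τ y ≠ y → τ.SameCycle x y) → (∀ e ∈ A, τ e.1 = e.2 ∧ e.1 ≠ e.2) →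
  (∀ v, τ v = v → (Finset.univ.filter (fun v => τ v = v)).card ≤
    (A.filter (fun e => D e.1 v ∧ D v e.2)).card) → HamD D

/-- Consequences of robustness for paths of length three. -/
def S_CONX : Prop := ∀ (V : Type) [Fintype V] (γ : ℝ) (D : V → V → Prop) (m : ℕ), 0 < γ →
  γ ≤ 1 / 4 → (∀ v, ¬ D v v) → Deg ((1 / 2 - γ / 2) * (Fintype.card V : ℝ)) D → Rob γ D →
  ((m : ℝ) ≤ γ / 2 * Fintype.card V → Con m D) ∧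
  (∀ u w, γ * (Fintype.card V : ℝ) ^ 2 ≤ ((Finset.univ.filter (fun e : V × V =>
    D u e.1 ∧ D e.1 e.2 ∧ D e.2 w)).card : ℝ)) ∧
  (∀ v, γ * (Fintype.card V : ℝ) ^ 2 ≤ ((Finset.univ.filter (fun e : V × V =>
    D e.1 v ∧ D e.1 e.2 ∧ D v e.2)).card : ℝ))

/-- Absorbing cycle and connectors. -/
def S_NE1 : Prop := ∀ γ ζ : ℝ, 0 < γ → γ ≤ 1 / 4 → 0 < ζ → ∃ (a : ℝ) (N : ℕ), 0 < a ∧
  ∀ (n : ℕ) (D : Fin n → Fin n → Prop), N ≤ n → (∀ v, ¬ D v v) →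
  Deg ((1 / 2 - γ / 2) * n) D → Rob γ D →
  ∃ (τ : Equiv.Perm (Fin n)) (A M : Finset (Fin n × Fin n)), (∀ v, τ v = v ∨ D v (τ v)) ∧
    (∀ x y, τ x ≠ x → τ y ≠ y → τ.SameCycle x y) ∧ (∃ v, τ v ≠ v) ∧
    (∀ e ∈ A, τ e.1 = e.2 ∧ e.1 ≠ e.2) ∧ VDs M ∧
    (∀ e ∈ M, τ e.1 = e.1 ∧ τ e.2 = e.2 ∧ D e.1 e.2) ∧
    (∀ u w, a * n ≤ ((M.filter (fun e => D u e.1 ∧ D e.2 w)).card : ℝ)) ∧
    ((Finset.univ.filter (fun v => τ v ≠ v)).card : ℝ) + 2 * M.card ≤ ζ * n ∧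
    (∀ v, 2 * (M.card : ℝ) + a * n ≤ ((A.filter (fun e => D e.1 v ∧ D v e.2)).card : ℝ))

def S_NE : Prop := ∀ γ : ℝ, 0 < γ → γ ≤ 1 / 4 → ∃ (ε : ℝ) (N : ℕ), 0 < ε ∧ ∀ (n : ℕ)
  (D : Fin n → Fin n → Prop), N ≤ n → (∀ v, ¬ D v v) → Deg ((1 / 2 - ε) * n) D → Rob γ D → HamD D

/-! The extremal case -/

/-- Every vertex has linear degree in its own direction; few arcs are missing. -/
def Part {V : Type} [Fintype V] (b c : ℝ) (D : V → V → Prop) (S T : Finset V) : Prop :=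
  (∀ v ∈ S, b * (Fintype.card V : ℝ) ≤ (od D v Tᶜ : ℝ)) ∧
  (∀ v ∉ S, b * (Fintype.card V : ℝ) ≤ (od D v T : ℝ)) ∧
  (∀ v ∈ T, b * (Fintype.card V : ℝ) ≤ (idg D v Sᶜ : ℝ)) ∧
  (∀ v ∉ T, b * (Fintype.card V : ℝ) ≤ (idg D v S : ℝ)) ∧
  (mis D S Tᶜ : ℝ) + (mis D Sᶜ T : ℝ) ≤ c * (Fintype.card V : ℝ) ^ 2

def S_ST1 : Prop := ∀ (V : Type) [Fintype V] (γ : ℝ) (D : V → V → Prop) (X Y : Finset V),
  0 < γ → γ ≤ 1 / 1000 → Deg ((1 / 2 - γ) * (Fintype.card V : ℝ)) D →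
  (1 / 2 - γ) * (Fintype.card V : ℝ) ≤ (X.card : ℝ) →
  (1 / 2 - γ) * (Fintype.card V : ℝ) ≤ (Y.card : ℝ) →
  (ee D X Y : ℝ) ≤ γ * (Fintype.card V : ℝ) ^ 2 →
  ∃ S T : Finset V, Part (1 / 10) (40 * γ) D S T ∧
    |(S.card : ℝ) - (Fintype.card V : ℝ) / 2| ≤ 20 * γ * (Fintype.card V : ℝ) ∧
    |(T.card : ℝ) - (Fintype.card V : ℝ) / 2| ≤ 20 * γ * (Fintype.card V : ℝ)

/-- No vertex can be moved. -/
def NoFlex {V : Type} [Fintype V] (b : ℝ) (D : V → V → Prop) (S T : Finset V) : Prop :=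
  (∀ v ∈ S, (od D v T : ℝ) < b * (Fintype.card V : ℝ)) ∧
  (∀ v ∈ T, (idg D v S : ℝ) < b * (Fintype.card V : ℝ))

/-- The final structure in the extremal case. -/
def Str {V : Type} [Fintype V] (γ : ℝ) (D : V → V → Prop) (S T : Finset V) : Prop :=
  Part (1 / 256) (80 * γ) D S T ∧
  |(S.card : ℝ) - (Fintype.card V : ℝ) / 2| ≤ 60 * γ * (Fintype.card V : ℝ) ∧
  |(T.card : ℝ) - (Fintype.card V : ℝ) / 2| ≤ 60 * γ * (Fintype.card V : ℝ) ∧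
  Fintype.card V ≤ S.card + T.card ∧
  ((S.card : ℝ) + (T.card : ℝ) ≤ (1 + 40 * γ) * (Fintype.card V : ℝ)) ∧
  (S.card + T.card = Fintype.card V ∨ NoFlex (1 / 128) D S T)

def S_ST2 : Prop := ∀ (V : Type) [Fintype V] (γ : ℝ) (D : V → V → Prop) (S T : Finset V),
  0 < γ → γ ≤ 1 / 20000 → Part (1 / 10) (40 * γ) D S T →
  |(S.card : ℝ) - (Fintype.card V : ℝ) / 2| ≤ 20 * γ * (Fintype.card V : ℝ) →
  |(T.card : ℝ) - (Fintype.card V : ℝ) / 2| ≤ 20 * γ * (Fintype.card V : ℝ) →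
  ∃ S' T' : Finset V, Str γ D S' T'

/-- A balanced pair `(U, W)` with nearly all arcs of `D`; `P`, `Q` are the good vertices. -/
def Blk {V : Type} (D : V → V → Prop) (U W : Finset V) (P Q : V → Prop) (l b c : ℕ) : Prop :=
  U.card = W.card ∧ 2 * l < U.card ∧ 5 * l < b ∧ 2 * c < (b - 5 * l) ^ 2 ∧
  (U.filter (fun u => ¬ P u)).card ≤ l ∧ (W.filter (fun w => ¬ Q w)).card ≤ l ∧
  (∀ u ∈ U, P u → (W.filter (fun w => ¬ D u w)).card ≤ l) ∧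
  (∀ w ∈ W, Q w → (U.filter (fun u => ¬ D u w)).card ≤ l) ∧
  (∀ u ∈ U, b ≤ od D u W) ∧ (∀ w ∈ W, b ≤ idg D w U) ∧ mis D U W ≤ c

/-- Bijection of `U` onto `W` along `D` with one good end for each arc. -/
def S_HG : Prop := ∀ (V : Type) [Fintype V] (D : V → V → Prop) (U W : Finset V)
  (P Q : V → Prop) (l b c : ℕ), Blk D U W P Q l b c →
  ∃ f : V → V, Set.InjOn f U ∧ (∀ u ∈ U, f u ∈ W ∧ D u (f u) ∧ (P u ∨ Q (f u)))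

/-- If `U` meets two cycles, two of them can be merged. -/
def S_HM : Prop := ∀ (V : Type) [Fintype V] (D : V → V → Prop) (U W : Finset V)
  (P Q : V → Prop) (l b c : ℕ) (σ : Equiv.Perm V), Blk D U W P Q l b c →
  (∀ u ∈ U, σ u ∈ W ∧ D u (σ u) ∧ (P u ∨ Q (σ u))) →
  (∃ x ∈ U, ∃ y ∈ U, ¬ σ.SameCycle x y) →
  ∃ x ∈ U, ∃ y ∈ U, ¬ σ.SameCycle x y ∧ D x (σ y) ∧ D y (σ x) ∧ Q (σ y) ∧ P y

/-- Hamilton cycle from two nearly complete balanced pairs and a few prescribed arcs. -/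
def S_HP : Prop := ∀ (V : Type) [Fintype V] (D G : V → V → Prop) (F : Finset (V × V))
  (U1 W1 U2 W2 : Finset V) (P1 Q1 P2 Q2 : V → Prop) (l b c l' b' c' : ℕ),
  (∀ u v, D u v → G u v) → Blk D U1 W1 P1 Q1 l b c → Blk D U2 W2 P2 Q2 l' b' c' → VDs F →
  (∀ e ∈ F, G e.1 e.2) → Disjoint U1 U2 → Disjoint W1 W2 →
  (∀ e ∈ F, e.1 ∉ U1 ∧ e.1 ∉ U2 ∧ e.2 ∉ W1 ∧ e.2 ∉ W2) →
  (∀ v, v ∈ U1 ∨ v ∈ U2 ∨ ∃ e ∈ F, e.1 = v) → (∀ v, v ∈ W1 ∨ v ∈ W2 ∨ ∃ e ∈ F, e.2 = v) →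
  ((∃ v, v ∈ U1 ∧ v ∈ W2) ∨ (∃ v, v ∈ U2 ∧ v ∈ W1) ∨ (∃ e ∈ F, e.1 ∈ W1 ∧ e.2 ∈ U2)) → HamD G

def S_H : Prop := ∀ lam : ℝ, 0 < lam → lam ≤ 1 / 100 → ∃ N : ℕ, ∀ (V : Type) [Fintype V]
  (D G : V → V → Prop) (S T : Finset V) (F1 F2 : Finset (V × V)), N ≤ Fintype.card V →
  (∀ u v, D u v → G u v) → Part (32 * lam) (lam ^ 2) D S T →
  (Fintype.card V : ℝ) / 4 ≤ (S.card : ℝ) → (S.card : ℝ) ≤ 3 / 4 * (Fintype.card V : ℝ) →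
  (Fintype.card V : ℝ) / 4 ≤ (T.card : ℝ) → (T.card : ℝ) ≤ 3 / 4 * (Fintype.card V : ℝ) →
  VDs (F1 ∪ F2) → (∀ e ∈ F1 ∪ F2, G e.1 e.2) → ((F1 ∪ F2).card : ℝ) ≤ 4 * lam * Fintype.card V →
  (∀ e ∈ F1, e.1 ∈ S ∧ e.2 ∈ T) → (∀ e ∈ F2, e.1 ∉ S ∧ e.2 ∉ T) →
  F1.card + Fintype.card V = F2.card + S.card + T.card →
  ((∃ v, v ∈ S ∧ v ∈ T ∧ v ∉ vs (F1 ∪ F2)) ∨ (∃ v, v ∉ S ∧ v ∉ T ∧ v ∉ vs (F1 ∪ F2)) ∨
    (∃ e ∈ F1, e.1 ∉ T ∧ e.2 ∉ S)) → HamD G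

/-- Vertex disjoint arcs of `D` from `S` to `T` avoiding `Z`. -/
def S_DM : Prop := ∀ (V : Type) [Fintype V] (D : V → V → Prop) (S T Z : Finset V) (b : ℝ) (k : ℕ),
  0 ≤ b → (∀ v, ¬ D v v) → (∀ v ∈ S, (od D v T : ℝ) ≤ b) → (∀ v ∈ T, (idg D v S : ℝ) ≤ b) →
  (2 * k + Z.card : ℝ) * (2 * b) < (ee D S T : ℝ) →
  ∃ F : Finset (V × V), VDs F ∧ F.card = k ∧ (∀ e ∈ F, D e.1 e.2 ∧ e.1 ∈ S ∧ e.2 ∈ T ∧
    e.1 ∉ Z ∧ e.2 ∉ Z)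

/-- Two disjoint sets such that random arcs between them give a Hamilton cycle. -/
def Goal {n : ℕ} (η : ℝ) (D : Fin n → Fin n → Prop) : Prop :=
  ∃ X Y : Finset (Fin n), Disjoint X Y ∧ (n : ℝ) / 8 ≤ X.card ∧ (n : ℝ) / 8 ≤ Y.card ∧
    ∀ R : Finset (Fin n × Fin n),
      (∃ M ⊆ R, VDs M ∧ (∀ e ∈ M, e.1 ∈ X ∧ e.2 ∈ Y) ∧ 10 * η ≤ (M.card : ℝ)) →
      (∃ M ⊆ R, VDs M ∧ (∀ e ∈ M, e.1 ∈ Y ∧ e.2 ∈ X) ∧ 10 * η ≤ (M.card : ℝ)) →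
      HamD (fun u v => D u v ∨ (u, v) ∈ R)

/-- Balanced case. -/
def S_FSA : Prop := ∃ N : ℕ, ∀ (n : ℕ) (η : ℝ) (D : Fin n → Fin n → Prop) (S T : Finset (Fin n)),
  N ≤ n → (∀ v, ¬ D v v) → 1 / 2 ≤ η → Str (1 / 2 ^ 33) D S T → S.card + T.card = n → Goal η D

/-- Unbalanced case, small intersection. -/
def S_FSB : Prop := ∃ N : ℕ, ∀ (n : ℕ) (η : ℝ) (D : Fin n → Fin n → Prop) (S T : Finset (Fin n)),
  N ≤ n → (∀ v, ¬ D v v) → 1 / 2 ≤ η → Deg ((n : ℝ) / 2 - η) D → Str (1 / 2 ^ 33) D S T →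
  n < S.card + T.card → (S ∩ T).card + 2 * n ≤ 2 * (S.card + T.card) → Goal η D

/-- Unbalanced case, large intersection. -/
def S_FSC : Prop := ∃ N : ℕ, ∀ (n : ℕ) (η : ℝ) (D : Fin n → Fin n → Prop) (S T : Finset (Fin n)),
  N ≤ n → (∀ v, ¬ D v v) → 1 / 2 ≤ η → Deg ((n : ℝ) / 2 - η) D → Str (1 / 2 ^ 33) D S T →
  n < S.card + T.card → 2 * (S.card + T.card) < (S ∩ T).card + 2 * n → Goal η D

/-- The deterministic extremal statement. -/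
def S_EXT : Prop := ∃ (γ : ℝ) (N : ℕ), 0 < γ ∧ γ ≤ 1 / 4 ∧ ∀ (n : ℕ) (η : ℝ)
  (D : Fin n → Fin n → Prop), N ≤ n → (∀ v, ¬ D v v) → 1 / 2 ≤ η → η ≤ γ * n →
  Deg ((n : ℝ) / 2 - η) D → ¬ Rob γ D → Goal η D

/-! The random digraph -/

/-- Expectation of `f` of a `p`-random subset of `E`. -/
def EW {α : Type} (E : Finset α) (p : ℝ) (f : Finset α → ℝ) : ℝ :=
  ∑ R ∈ E.powerset, p ^ R.card * (1 - p) ^ (E.card - R.card) * f R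

def S_EW : Prop :=
  (∀ (α : Type) (E : Finset α) (p : ℝ), EW E p (fun _ => 1) = 1) ∧
  (∀ (α : Type) (E : Finset α) (p : ℝ) (f g : Finset α → ℝ), 0 ≤ p → p ≤ 1 →
    (∀ R ⊆ E, f R ≤ g R) → EW E p f ≤ EW E p g) ∧
  (∀ (α : Type) (E : Finset α) (p p' : ℝ) (f : Finset α → ℝ), 0 ≤ p → p ≤ p' → p' ≤ 1 →
    (∀ R R', R ⊆ R' → R' ⊆ E → f R' ≤ f R) → EW E p' f ≤ EW E p f) ∧
  (∀ (α : Type) (E : Finset α) (p : ℝ) (e : α), e ∈ E →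
    EW E p (fun R => if e ∈ R then 1 else 0) = p) ∧
  (∀ (α : Type) (E : Finset α) (p : ℝ) (e e' : α), e ∈ E → e' ∈ E → e ≠ e' →
    EW E p (fun R => if e ∈ R ∧ e' ∈ R then 1 else 0) = p ^ 2)

def S_CHEB : Prop := ∀ (α : Type) (E B : Finset α) (p : ℝ), B ⊆ E → 0 < p → p ≤ 1 →
  B.Nonempty → EW E p (fun R => if 2 * ((R ∩ B).card : ℝ) ≤ p * B.card then 1 else 0) ≤
    4 / (p * B.card)

def S_RM : Prop := ∀ δ : ℝ, 0 < δ → ∃ (K ε : ℝ) (N : ℕ), 0 < K ∧ 0 < ε ∧ ∀ (n : ℕ) (η p : ℝ)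
  (X Y : Finset (Fin n)), N ≤ n → 1 / 2 ≤ η → η ≤ ε * n → 0 ≤ p → p ≤ 1 →
  K * η / (n : ℝ) ^ 2 ≤ p → Disjoint X Y → (n : ℝ) / 8 ≤ X.card → (n : ℝ) / 8 ≤ Y.card →
  EW (Finset.univ : Finset (Fin n)).offDiag p (fun R => if (∃ M ⊆ R, VDs M ∧
    (∀ e ∈ M, e.1 ∈ X ∧ e.2 ∈ Y) ∧ 10 * η ≤ (M.card : ℝ)) then 0 else 1) ≤ δ

/-- The complete bipartite digraph with parts `{x < a}` and `{x ≥ a}`. -/
def KD (n a : ℕ) (u v : Fin n) : Prop := (u.val < a ∧ a ≤ v.val) ∨ (v.val < a ∧ a ≤ u.val)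

def S_LOWD : Prop := ∀ (n a : ℕ) (p : ℝ), 2 * a < n → 0 ≤ p → p ≤ 1 → Deg a (KD n a) ∧
  ((n : ℝ) - 2 * a) * EW (Finset.univ : Finset (Fin n)).offDiag p (fun R =>
    if HamD (fun u v => KD n a u v ∨ (u, v) ∈ R) then 1 else 0) ≤ p * (n : ℝ) ^ 2

end

end Pool.Agent.W845.DH
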