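import Pool.Agent.W845.DH.Stm

set_option autoImplicit false
open scoped Classical
open Filter Topology
open scoped BigOperators

namespace Pool.Agent.W845.DH

noncomputable section

/-- Probability of the property `P` under the binomial random digraph `D(n,p)`; the random set of
arcs is a `p`-random subset of the pairs `(u,v)` with `u ≠ v`. -/
def PrD (n : ℕ) (p : ℝ) (P : Finset (Fin n × Fin n) → Prop) : ℝ :=
  EW (Finset.univ : Finset (Fin n)).offDiag p (fun R => if P R then (1 : ℝ) else 0)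

/-- `D ∪ R` is Hamiltonian. -/
def HamU {n : ℕ} (D : Fin n → Fin n → Prop) (R : Finset (Fin n × Fin n)) : Prop :=
  HamD (fun u v => D u v ∨ (u, v) ∈ R)

theorem Deg_mono {V : Type} [Fintype V] {a b : ℝ} {D : V → V → Prop} (h : a ≤ b) (hD : Deg b D) :
    Deg a D := fun v => ⟨h.trans (hD v).1, h.trans (hD v).2⟩

theorem ext_thm (h1 : S_ST1) (h2 : S_ST2) (hA : S_FSA) (hB : S_FSB) (hC : S_FSC) : S_EXT := by
  obtain ⟨NA, hA⟩ := hA
  obtain ⟨NB, hB⟩ := hB
  obtain ⟨NC, hC⟩ := hC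
  refine ⟨1 / 2 ^ 33, max NA (max NB NC), by norm_num, by norm_num, ?_⟩
  intro n η D hn hirr hη hηγ hdeg hrob
  have hnA : NA ≤ n := (le_max_left _ _).trans hn
  have hnB : NB ≤ n := ((le_max_left _ _).trans (le_max_right _ _)).trans hn
  have hnC : NC ≤ n := ((le_max_right _ _).trans (le_max_right _ _)).trans hn
  unfold Rob at hrob
  push Not at hrob
  obtain ⟨X, Y, hX, hY, he⟩ := hrob
  have hdeg' : Deg ((1 / 2 - 1 / 2 ^ 33) * (Fintype.card (Fin n) : ℝ)) D := by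
    refine Deg_mono ?_ hdeg
    rw [Fintype.card_fin]
    linarith
  obtain ⟨S, T, hP, hS, hT⟩ := h1 (Fin n) (1 / 2 ^ 33) D X Y (by norm_num) (by norm_num) hdeg' hX hY
    he
  obtain ⟨S', T', hstr⟩ := h2 (Fin n) (1 / 2 ^ 33) D S T (by norm_num) (by norm_num) hP hS hT
  have hle : n ≤ S'.card + T'.card := by
    have := hstr.2.2.2.1
    rwa [Fintype.card_fin] at this
  rcases hle.eq_or_lt with h | h
  · exact hA n η D S' T' hnA hirr hη hstr h.symm
  · rcases le_or_gt ((S' ∩ T').card + 2 * n) (2 * (S'.card + T'.card)) with h' | h'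
    · exact hB n η D S' T' hnB hirr hη hdeg hstr h h'
    · exact hC n η D S' T' hnC hirr hη hdeg hstr h h'

theorem HamD_mono {V : Type} {D G : V → V → Prop} (h : ∀ u v, D u v → G u v) (hD : HamD D) :
    HamD G := by
  obtain ⟨τ, h1, h2⟩ := hD
  exact ⟨τ, fun v => h _ _ (h1 v), h2⟩

theorem EW_add {α : Type} (E : Finset α) (p : ℝ) (f g : Finset α → ℝ) :
    EW E p (fun R => f R + g R) = EW E p f + EW E p g := by
  unfold EW
  rw [← Finset.sum_add_distrib]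
  exact Finset.sum_congr rfl fun R _ => by ring

theorem PrD_add_compl (hEW : S_EW) (n : ℕ) (p : ℝ) (P : Finset (Fin n × Fin n) → Prop) :
    PrD n p P + EW (Finset.univ : Finset (Fin n)).offDiag p
      (fun R => if P R then (0 : ℝ) else 1) = 1 := by
  unfold PrD
  rw [← EW_add]
  refine Eq.trans ?_ (hEW.1 _ (Finset.univ : Finset (Fin n)).offDiag p)
  have h : (fun R => (if P R then (1 : ℝ) else 0) + (if P R then (0 : ℝ) else 1)) =
      fun _ => (1 : ℝ) := by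
    funext R
    split_ifs <;> norm_num
  rw [h]

theorem PrD_nonneg (hEW : S_EW) {n : ℕ} {p : ℝ} (h0 : 0 ≤ p) (h1 : p ≤ 1)
    (P : Finset (Fin n × Fin n) → Prop) : 0 ≤ PrD n p P := by
  have h := hEW.2.1 _ (Finset.univ : Finset (Fin n)).offDiag p (fun _ => 0)
    (fun R => if P R then (1 : ℝ) else 0) h0 h1 (fun R _ => by
      show (0 : ℝ) ≤ if P R then (1 : ℝ) else 0
      split_ifs <;> norm_num)
  have h' : EW (Finset.univ : Finset (Fin n)).offDiag p (fun _ => (0 : ℝ)) = 0 := by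
    unfold EW
    simp
  rw [h'] at h
  exact h

theorem PrD_le_one (hEW : S_EW) {n : ℕ} {p : ℝ} (h0 : 0 ≤ p) (h1 : p ≤ 1)
    (P : Finset (Fin n × Fin n) → Prop) : PrD n p P ≤ 1 := by
  have h := hEW.2.1 _ (Finset.univ : Finset (Fin n)).offDiag p
    (fun R => if P R then (1 : ℝ) else 0) (fun _ => 1) h0 h1 (fun R _ => by
      show (if P R then (1 : ℝ) else 0) ≤ 1
      split_ifs <;> norm_num)
  rw [hEW.1] at h
  exact h

/-- Upper side, quantitative. -/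
theorem high (hEW : S_EW) (hext : S_EXT) (hne : S_NE) (hrm : S_RM) (δ : ℝ) (hδ : 0 < δ) :
    ∃ (K ε : ℝ) (N : ℕ), 0 < K ∧ 0 < ε ∧ ∀ (n : ℕ) (η p : ℝ) (D : Fin n → Fin n → Prop), N ≤ n →
      (∀ v, ¬ D v v) → 1 / 2 ≤ η → η ≤ ε * n → Deg ((n : ℝ) / 2 - η) D → 0 ≤ p → p ≤ 1 →
      K * η / (n : ℝ) ^ 2 ≤ p → 1 - δ ≤ PrD n p (HamU D) := by
  obtain ⟨γ, N1, hγ0, hγ1, hext⟩ := hext
  obtain ⟨ε1, N2, hε1, hne⟩ := hne γ hγ0 hγ1
  obtain ⟨K, ε2, N3, hK, hε2, hrm⟩ := hrm (δ / 2) (by linarith)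
  refine ⟨K, min γ (min ε1 ε2), max N1 (max N2 N3), hK, lt_min hγ0 (lt_min hε1 hε2), ?_⟩
  intro n η p D hn hirr hη hηε hdeg hp0 hp1 hKp
  have hn1 : N1 ≤ n := (le_max_left _ _).trans hn
  have hn2 : N2 ≤ n := ((le_max_left _ _).trans (le_max_right _ _)).trans hn
  have hn3 : N3 ≤ n := ((le_max_right _ _).trans (le_max_right _ _)).trans hn
  have hnn : (0 : ℝ) ≤ n := Nat.cast_nonneg _
  have e1 : η ≤ γ * n := hηε.trans (mul_le_mul_of_nonneg_right (min_le_left _ _) hnn)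
  have e2 : η ≤ ε1 * n := hηε.trans (mul_le_mul_of_nonneg_right
    ((min_le_right _ _).trans (min_le_left _ _)) hnn)
  have e3 : η ≤ ε2 * n := hηε.trans (mul_le_mul_of_nonneg_right
    ((min_le_right _ _).trans (min_le_right _ _)) hnn)
  have hc := PrD_add_compl hEW n p (HamU D)
  suffices h : EW (Finset.univ : Finset (Fin n)).offDiag p
      (fun R => if HamU D R then (0 : ℝ) else 1) ≤ δ by linarith
  by_cases hrob : Rob γ D
  · have hham : HamD D := hne n D hn2 hirr (Deg_mono (by linarith) hdeg) hrob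
    have h1 : ∀ R, HamU D R := fun R => HamD_mono (fun u v h => Or.inl h) hham
    simp only [h1, if_true]
    unfold EW
    simp
    exact hδ.le
  · obtain ⟨X, Y, hXY, hX, hY, hR⟩ := hext n η D hn1 hirr hη e1 hdeg hrob
    have r1 := hrm n η p X Y hn3 hη e3 hp0 hp1 hKp hXY hX hY
    have r2 := hrm n η p Y X hn3 hη e3 hp0 hp1 hKp hXY.symm hY hX
    have h := hEW.2.1 _ (Finset.univ : Finset (Fin n)).offDiag p
      (fun R => if HamU D R then (0 : ℝ) else 1)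
      (fun R => (if (∃ M ⊆ R, VDs M ∧ (∀ e ∈ M, e.1 ∈ X ∧ e.2 ∈ Y) ∧ 10 * η ≤ (M.card : ℝ))
        then (0 : ℝ) else 1) + (if (∃ M ⊆ R, VDs M ∧ (∀ e ∈ M, e.1 ∈ Y ∧ e.2 ∈ X) ∧
          10 * η ≤ (M.card : ℝ)) then (0 : ℝ) else 1)) hp0 hp1 (fun R _ => by
        show (if HamU D R then (0 : ℝ) else 1) ≤ _
        by_cases c1 : (∃ M ⊆ R, VDs M ∧ (∀ e ∈ M, e.1 ∈ X ∧ e.2 ∈ Y) ∧ 10 * η ≤ (M.card : ℝ))
        · by_cases c2 : (∃ M ⊆ R, VDs M ∧ (∀ e ∈ M, e.1 ∈ Y ∧ e.2 ∈ X) ∧ 10 * η ≤ (M.card : ℝ))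
          · have : HamU D R := hR R c1 c2
            rw [if_pos this, if_pos c1, if_pos c2]
            norm_num
          · rw [if_pos c1, if_neg c2]
            split_ifs <;> norm_num
        · rw [if_neg c1]
          split_ifs <;> norm_num)
    refine h.trans ?_
    rw [EW_add]
    linarith

theorem tendsto_zero_of {f : ℕ → ℝ} (h0 : ∀ n, 0 ≤ f n)
    (h : ∀ δ : ℝ, 0 < δ → ∀ᶠ n in atTop, f n ≤ δ) : Tendsto f atTop (𝓝 0) := by
  rw [Metric.tendsto_atTop]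
  intro δ hδ
  obtain ⟨N, hN⟩ := eventually_atTop.1 (h (δ / 2) (by linarith))
  refine ⟨N, fun n hn => ?_⟩
  have := hN n hn
  rw [Real.dist_eq, sub_zero, abs_of_nonneg (h0 n)]
  linarith

theorem tendsto_one_of {f : ℕ → ℝ} (h0 : ∀ n, f n ≤ 1)
    (h : ∀ δ : ℝ, 0 < δ → ∀ᶠ n in atTop, 1 - δ ≤ f n) : Tendsto f atTop (𝓝 1) := by
  rw [Metric.tendsto_atTop]
  intro δ hδ
  obtain ⟨N, hN⟩ := eventually_atTop.1 (h (δ / 2) (by linarith))
  refine ⟨N, fun n hn => ?_⟩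
  have := hN n hn
  rw [Real.dist_eq, abs_sub_comm, abs_of_nonneg (by linarith [h0 n])]
  linarith

/-- Condition (i) of a threshold. -/
def UpperCond (η : ℕ → ℝ) : Prop :=
  ∀ (D : (n : ℕ) → Fin n → Fin n → Prop) (p : ℕ → ℝ), (∀ n v, ¬ D n v v) →
    (∀ᶠ n : ℕ in atTop, Deg ((n : ℝ) / 2 - η n) (D n)) → (∀ n, 0 ≤ p n ∧ p n ≤ 1) →
    Tendsto (fun n : ℕ => p n / (η n / (n : ℝ) ^ 2)) atTop atTop →
    Tendsto (fun n => PrD n (p n) (HamU (D n))) atTop (𝓝 1)

/-- Condition (ii) of a threshold, with one sequence of digraphs for all `p`. -/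
def LowerCond (η : ℕ → ℝ) : Prop :=
  ∃ D : (n : ℕ) → Fin n → Fin n → Prop, (∀ n v, ¬ D n v v) ∧
    (∀ᶠ n : ℕ in atTop, Deg ((n : ℝ) / 2 - η n) (D n)) ∧
    ∀ p : ℕ → ℝ, (∀ n, 0 ≤ p n ∧ p n ≤ 1) →
      Tendsto (fun n : ℕ => p n / (η n / (n : ℝ) ^ 2)) atTop (𝓝 0) →
      Tendsto (fun n => PrD n (p n) (HamU (D n))) atTop (𝓝 0)

theorem upper (hEW : S_EW) (hext : S_EXT) (hne : S_NE) (hrm : S_RM) (η : ℕ → ℝ)
    (h1 : ∀ᶠ n : ℕ in atTop, 1 / 2 ≤ η n) (h2 : Tendsto (fun n : ℕ => η n / n) atTop (𝓝 0)) :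
    UpperCond η := by
  intro D p hirr hdeg hp hlim
  refine tendsto_one_of (fun n => PrD_le_one hEW (hp n).1 (hp n).2 _) fun δ hδ => ?_
  obtain ⟨K, ε, N, hK, hε, h⟩ := high hEW hext hne hrm δ hδ
  filter_upwards [h1, h2.eventually (gt_mem_nhds hε), hdeg, hlim.eventually (eventually_ge_atTop K),
    eventually_ge_atTop N, eventually_gt_atTop 0] with n g1 g2 g3 g4 g5 g6
  have hn : (0 : ℝ) < n := by exact_mod_cast g6
  have hη : 0 < η n := by linarith
  refine h n (η n) (p n) (D n) g5 (hirr n) g1 ?_ g3 (hp n).1 (hp n).2 ?_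
  · rw [div_lt_iff₀ hn] at g2
    exact g2.le
  · have hpos : 0 < η n / (n : ℝ) ^ 2 := by positivity
    rw [le_div_iff₀ hpos] at g4
    calc K * η n / (n : ℝ) ^ 2 = K * (η n / (n : ℝ) ^ 2) := by ring
      _ ≤ p n := g4

theorem lower (hEW : S_EW) (hlow : S_LOWD) (η : ℕ → ℝ)
    (h1 : ∀ᶠ n : ℕ in atTop, 1 / 2 ≤ η n) (h2 : Tendsto (fun n : ℕ => η n / n) atTop (𝓝 0))
    (h3 : ∀ᶠ n : ℕ in atTop, ∃ k : ℕ, (n : ℝ) / 2 - η n ≤ k ∧ (k : ℝ) < n / 2) :
    LowerCond η := by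
  refine ⟨fun n => KD n ⌈(n : ℝ) / 2 - η n⌉₊, ?_, ?_, ?_⟩
  · intro n v h
    unfold KD at h
    omega
  · filter_upwards [h3] with n g3
    obtain ⟨k, hk1, hk2⟩ := g3
    have hle : ⌈(n : ℝ) / 2 - η n⌉₊ ≤ k := Nat.ceil_le.2 hk1
    have hlt : 2 * ⌈(n : ℝ) / 2 - η n⌉₊ < n := by
      have : (2 * k : ℝ) < n := by linarith
      have h' : 2 * k < n := by exact_mod_cast this
      omega
    have := (hlow n ⌈(n : ℝ) / 2 - η n⌉₊ 0 hlt le_rfl zero_le_one).1
    exact Deg_mono (Nat.le_ceil _) this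
  · intro p hp hlim
    refine tendsto_zero_of (fun n => PrD_nonneg hEW (hp n).1 (hp n).2 _) fun δ hδ => ?_
    filter_upwards [h1, h2.eventually (gt_mem_nhds (one_pos : (0 : ℝ) < 1)), h3,
      hlim.eventually (gt_mem_nhds (by linarith : (0 : ℝ) < δ / 2)),
      eventually_gt_atTop 0] with n g1 g2 g3 g4 g5
    obtain ⟨k, hk1, hk2⟩ := g3
    have hn : (0 : ℝ) < n := by exact_mod_cast g5
    have hη : 0 < η n := by linarith
    set a := ⌈(n : ℝ) / 2 - η n⌉₊ with ha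
    have hle : a ≤ k := Nat.ceil_le.2 hk1
    have hlt : 2 * a < n := by
      have : (2 * k : ℝ) < n := by linarith
      have h' : 2 * k < n := by exact_mod_cast this
      omega
    have hL := (hlow n a (p n) hlt (hp n).1 (hp n).2).2
    have hge1 : (1 : ℝ) ≤ (n : ℝ) - 2 * a := by
      have : 2 * a + 1 ≤ n := hlt
      have h' : (2 * a + 1 : ℝ) ≤ n := by exact_mod_cast this
      linarith
    have hge2 : 2 * η n - 2 ≤ (n : ℝ) - 2 * a ∨ η n ≤ (n : ℝ) - 2 * a := by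
      rcases le_or_gt 0 ((n : ℝ) / 2 - η n) with h0 | h0
      · left
        have := Nat.ceil_lt_add_one h0
        rw [← ha] at this
        linarith
      · right
        have : a = 0 := by
          rw [ha, Nat.ceil_eq_zero]
          exact h0.le
        rw [this]
        rw [div_lt_one hn] at g2
        push_cast
        linarith
    have hge3 : η n / 2 ≤ (n : ℝ) - 2 * a := by
      rcases hge2 with h | h
      · rcases le_or_gt (η n) 2 with h' | h'
        · linarith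
        · linarith
      · linarith
    have hnn := PrD_nonneg hEW (hp n).1 (hp n).2 (HamU (KD n a))
    have hL' : ((n : ℝ) - 2 * a) * PrD n (p n) (HamU (KD n a)) ≤ p n * (n : ℝ) ^ 2 := hL
    have h5 : η n / 2 * PrD n (p n) (HamU (KD n a)) ≤ p n * (n : ℝ) ^ 2 :=
      (mul_le_mul_of_nonneg_right hge3 hnn).trans hL'
    have hpos : 0 < η n / (n : ℝ) ^ 2 := by positivity
    rw [div_lt_iff₀ hpos] at g4
    have h6 : p n * (n : ℝ) ^ 2 < δ / 2 * η n := by
      calc p n * (n : ℝ) ^ 2 < δ / 2 * (η n / (n : ℝ) ^ 2) * (n : ℝ) ^ 2 :=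
            mul_lt_mul_of_pos_right g4 (by positivity)
        _ = δ / 2 * η n := by field_simp
    by_contra hcon
    push Not at hcon
    have : δ * (η n / 2) < PrD n (p n) (HamU (KD n a)) * (η n / 2) :=
      mul_lt_mul_of_pos_right hcon (by linarith)
    linarith

end

end Pool.Agent.W845.DH
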